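import Pool.Agent.H73.MA.Ctr
import Pool.Agent.H5.CP.CrW
import Pool.Agent.H5.CP.Cls

/-!
# The combinatorial part of the presieve for an arbitrary admissible set
-/

set_option autoImplicit false

namespace H73MA

open Finset H5CP

/-- `H` misses a class modulo every prime -/
def Adm (H : Finset ℕ) : Prop := ∀ p : ℕ, p.Prime → ∃ r : ℕ, ∀ h ∈ H, ¬ h ≡ r [MOD p]

open Classical in
/-- primes of `(a, b]` dividing some difference `h - c` -/
noncomputable def XX (H : Finset ℕ) (c a b : ℕ) : Finset ℕ :=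
  (Icc 1 b).filter (fun p : ℕ => p.Prime ∧ a < p ∧ ∃ h ∈ H, c ≡ h [MOD p])

lemma mem_XX {H : Finset ℕ} {c a b p : ℕ} : p ∈ XX H c a b ↔ (1 ≤ p ∧ p ≤ b) ∧ p.Prime ∧ a < p ∧ ∃ h ∈ H, c ≡ h [MOD p] := by
  classical
  unfold XX
  rw [mem_filter, mem_Icc]

open Classical in
lemma XX_sum {H : Finset ℕ} {c b : ℕ} : ∑ p ∈ XX H c 0 b, (1 : ℝ) / p ≤
    ∑ h ∈ H, ∑ p ∈ ((Icc 1 b).filter Nat.Prime).filter (fun p : ℕ => c ≡ h [MOD p]), (1 : ℝ) / p := by
  have h1 : ∀ h ∈ H, ∑ p ∈ (XX H c 0 b).filter (fun p : ℕ => c ≡ h [MOD p]), (1 : ℝ) / p ≤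
      ∑ p ∈ ((Icc 1 b).filter Nat.Prime).filter (fun p : ℕ => c ≡ h [MOD p]), (1 : ℝ) / p := by
    intro h _
    refine Finset.sum_le_sum_of_subset_of_nonneg ?_ fun _ _ _ => by positivity
    intro p hp
    rw [mem_filter, mem_XX] at hp
    rw [mem_filter, mem_filter, mem_Icc]
    exact ⟨⟨hp.1.1, hp.1.2.1⟩, hp.2⟩
  refine le_trans ?_ (Finset.sum_le_sum h1)
  have h2 : ∀ h ∈ H, ∑ p ∈ (XX H c 0 b).filter (fun p : ℕ => c ≡ h [MOD p]), (1 : ℝ) / p =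
      ∑ p ∈ XX H c 0 b, if c ≡ h [MOD p] then (1 : ℝ) / p else 0 := fun h _ => by rw [Finset.sum_filter]
  rw [Finset.sum_congr rfl h2, Finset.sum_comm]
  refine Finset.sum_le_sum fun p hp => ?_
  obtain ⟨_, _, _, h, hh, hch⟩ := mem_XX.1 hp
  calc (1 : ℝ) / p = if c ≡ h [MOD p] then (1 : ℝ) / p else 0 := by rw [if_pos hch]
    _ ≤ _ := Finset.single_le_sum (f := fun h : ℕ => if c ≡ h [MOD p] then (1 : ℝ) / p else 0)
        (fun _ _ => by split_ifs <;> positivity) hh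

open Classical in
/-- the survivors of the classes `c` -/
noncomputable def SC (N c w0 w z P : ℕ) (B D : Finset ℕ) : Finset ℕ :=
  (Icc 1 N).filter (fun k : ℕ => k ≠ c ∧ ∀ p : ℕ, p.Prime → k ≡ c [MOD p] →
    (w0 < p ∧ p ≤ w) ∨ z < p ∨ p = P ∨ p ∈ B ∨ p ∈ D)

lemma mem_SC {N c w0 w z P k : ℕ} {B D : Finset ℕ} :
    k ∈ SC N c w0 w z P B D ↔ (1 ≤ k ∧ k ≤ N) ∧ k ≠ c ∧ ∀ p : ℕ, p.Prime → k ≡ c [MOD p] →
      (w0 < p ∧ p ≤ w) ∨ z < p ∨ p = P ∨ p ∈ B ∨ p ∈ D := by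
  classical
  unfold SC
  rw [mem_filter, mem_Icc]

theorem SC_card {N c w0 w z P : ℕ} {B D : Finset ℕ} (hc1 : 1 ≤ c) (hcN : c ≤ N) :
    (SC N c w0 w z P B D).card ≤ 2 * (SD N w0 w z P B D).card := by
  classical
  have hsub : SC N c w0 w z P B D ⊆ ((SD N w0 w z P B D).image (fun u => c + u)) ∪
      ((SD N w0 w z P B D).image (fun u => c - u)) := by
    intro k hk
    rw [mem_SC] at hk
    obtain ⟨⟨h1, h2⟩, h3, h4⟩ := hk
    rw [mem_union, mem_image, mem_image]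
    rcases lt_or_gt_of_ne h3 with h | h
    · right
      refine ⟨c - k, mem_SD.2 ⟨⟨by omega, by omega⟩, fun p hp hd => h4 p hp ?_⟩, by omega⟩
      exact (Nat.modEq_iff_dvd' h.le).2 hd
    · left
      refine ⟨k - c, mem_SD.2 ⟨⟨by omega, by omega⟩, fun p hp hd => h4 p hp ?_⟩, by omega⟩
      exact ((Nat.modEq_iff_dvd' h.le).2 hd).symm
  have h1 := (card_le_card hsub).trans (card_union_le _ _)
  have h2 := Finset.card_image_le (s := SD N w0 w z P B D) (f := fun u => c + u)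
  have h3 := Finset.card_image_le (s := SD N w0 w z P B D) (f := fun u => c - u)
  omega

open Classical in
/-- residues -/
noncomputable def ra (H : Finset ℕ) (c w0 w : ℕ) (r ρ : ℕ → ℕ) (p : ℕ) : ℕ :=
  if w0 < p ∧ p ≤ w then r p else if ∃ h ∈ H, c ≡ h [MOD p] then ρ p else c

open Classical in
/-- the combinatorial part -/
theorem combA {w0 w z N P κ c : ℕ} {B : Finset ℕ} (hw0 : κ ≤ w0) (hww : w0 ≤ w) (hwz : w ≤ z)
    (hB : ∀ p ∈ B, w < p) {H : Finset ℕ} (hHc : H.card ≤ κ) (hadm : Adm H) :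
    ∃ b : ℕ, b < WW z P B ∧ (∀ h ∈ H, Nat.Coprime (b + h) (WW z P B)) ∧
      (((Icc 1 N).filter (fun k : ℕ => Nat.Coprime (b + k) (WW z P B))).card : ℝ) ≤
        κ + 1 + ∑ k ∈ (SC N c w0 w z P (B ∪ XX H c w z) (XX H c 0 w0)) \ H, ∏ p ∈ (QQ w0 w P).filter
          (fun p : ℕ => ∀ h' ∈ H, ¬ k ≡ h' [MOD p]), (1 - 1 / (p : ℝ)) := by
  obtain ⟨r, hr1, hr2⟩ := cls H (QQ w0 w P) (fun p hp => by
    rw [mem_QQ] at hp
    exact ⟨hp.2.1, by omega⟩) ((SC N c w0 w z P (B ∪ XX H c w z) (XX H c 0 w0)) \ H)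
  have hρ : ∀ p : ℕ, ∃ ρ : ℕ, p.Prime → ∀ h ∈ H, ¬ h ≡ ρ [MOD p] := by
    intro p
    by_cases hp : p.Prime
    · obtain ⟨ρ, h⟩ := hadm p hp
      exact ⟨ρ, fun _ => h⟩
    · exact ⟨0, fun h => absurd h hp⟩
  choose ρ hρ using hρ
  obtain ⟨b, hb1, hb2⟩ := crW (ra H c w0 w r ρ) z P B
  refine ⟨b, hb1, fun h hh => ?_, ?_⟩
  · rw [coprime_iff hb2]
    intro p hp hcon
    rw [mem_PP] at hp
    obtain ⟨⟨hp1, hp2⟩, hp3, hp4, hp5⟩ := hp
    unfold ra at hcon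
    split_ifs at hcon with hc1 hc2
    · exact hr1 p (mem_QQ.2 ⟨⟨hp1, hc1.2⟩, hp3, hc1.1, hp4⟩) h hh hcon
    · exact hρ p hp3 h hh hcon
    · exact hc2 ⟨h, hh, hcon.symm⟩
  · have hsub : (Icc 1 N).filter (fun k : ℕ => Nat.Coprime (b + k) (WW z P B)) ⊆
        (H ∪ {c}) ∪ ((SC N c w0 w z P (B ∪ XX H c w z) (XX H c 0 w0)) \ H).filter
          (fun k : ℕ => ∀ p ∈ QQ w0 w P, ¬ k ≡ r p [MOD p]) := by
      intro k hk
      rw [mem_filter, mem_Icc, coprime_iff hb2] at hk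
      obtain ⟨hk1, hk2⟩ := hk
      rw [mem_union, mem_union, mem_singleton]
      by_cases hkH : k ∈ H
      · exact Or.inl (Or.inl hkH)
      by_cases hkc : k = c
      · exact Or.inl (Or.inr hkc)
      right
      rw [mem_filter, Finset.mem_sdiff, mem_SC]
      refine ⟨⟨⟨hk1, hkc, fun p hp hpk => ?_⟩, hkH⟩, fun p hp hcon => ?_⟩
      · by_contra hcon
        push Not at hcon
        obtain ⟨h1, h2, h3, h4, h5⟩ := hcon
        rw [mem_union, not_or] at h4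
        apply hk2 p (mem_PP.2 ⟨⟨hp.one_le, h2⟩, hp, h3, h4.1⟩)
        unfold ra
        have h6 : ¬ (w0 < p ∧ p ≤ w) := by
          rintro ⟨h6, h7⟩
          have := h1 h6
          omega
        rw [if_neg h6]
        have h7 : ¬ ∃ h ∈ H, c ≡ h [MOD p] := by
          intro h7
          by_cases hpw : p ≤ w0
          · exact h5 (mem_XX.2 ⟨⟨hp.one_le, hpw⟩, hp, hp.pos, h7⟩)
          · exact h4.2 (mem_XX.2 ⟨⟨hp.one_le, h2⟩, hp, by omega, h7⟩)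
        rw [if_neg h7]
        exact hpk
      · rw [mem_QQ] at hp
        obtain ⟨⟨hp1, hp2⟩, hp3, hp4, hp5⟩ := hp
        apply hk2 p (mem_PP.2 ⟨⟨hp1, hp2.trans hwz⟩, hp3, hp5, fun hpB => by
          have := hB p hpB
          omega⟩)
        unfold ra
        rw [if_pos ⟨hp4, hp2⟩]
        exact hcon
    have h1 := card_le_card hsub
    have h2 := h1.trans (card_union_le _ _)
    have h3 : (H ∪ {c}).card ≤ κ + 1 := by
      refine (card_union_le _ _).trans ?_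
      rw [card_singleton]
      omega
    have h4 : (((Icc 1 N).filter (fun k : ℕ => Nat.Coprime (b + k) (WW z P B))).card : ℝ) ≤
        ((κ + 1 : ℕ) : ℝ) + ((((SC N c w0 w z P (B ∪ XX H c w z) (XX H c 0 w0)) \ H).filter
          (fun k : ℕ => ∀ p ∈ QQ w0 w P, ¬ k ≡ r p [MOD p])).card : ℝ) := by exact_mod_cast h2.trans (Nat.add_le_add_right h3 _)
    push_cast at h4
    linarith

end H73MA
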