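import Pool.Agent.H5.CP.Cnt

/-!
# Counting the survivors with a set `D` of additional allowed primes (adapted from helper5's `Cnt`)
-/

set_option autoImplicit false

namespace H73MA

open Finset Pool.Agent.H7.LG H5CP

/-- the integers of `[1, N]` all whose prime factors lie in `(w0, w]`, in `(z, N]`, in `B`, in `D` or are equal to `P` -/
noncomputable def SD (N w0 w z P : ℕ) (B D : Finset ℕ) : Finset ℕ := by
  classical exact (Icc 1 N).filter (fun k : ℕ => ∀ p : ℕ, p.Prime → p ∣ k →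
    (w0 < p ∧ p ≤ w) ∨ z < p ∨ p = P ∨ p ∈ B ∨ p ∈ D)

lemma mem_SD {N w0 w z P k : ℕ} {B D : Finset ℕ} :
    k ∈ SD N w0 w z P B D ↔ (1 ≤ k ∧ k ≤ N) ∧ ∀ p : ℕ, p.Prime → p ∣ k →
      (w0 < p ∧ p ≤ w) ∨ z < p ∨ p = P ∨ p ∈ B ∨ p ∈ D := by
  classical
  unfold SD
  rw [mem_filter, mem_Icc]

theorem cnd_m : ∃ C : ℝ, 1 ≤ C ∧ ∀ (M w0 P : ℕ) (D : Finset ℕ), 2 ≤ w0 → (P = 0 ∨ P.Prime) → (∀ p ∈ D, p.Prime) →
    ∀ T : Finset ℕ, (∀ m ∈ T, 1 ≤ m ∧ m ≤ M ∧ ∀ p : ℕ, p.Prime → p ∣ m → w0 < p ∨ p = P ∨ p ∈ D) →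
    ∑ m ∈ T, ((m : ℝ))⁻¹ ≤ C * (∏ p ∈ D, (1 - ((p : ℝ))⁻¹)⁻¹) * (1 + Real.log M / Real.log w0) := by
  obtain ⟨c, hc, _, _, h3, _⟩ := Pool.Agent.H67.GT.MERT.mert
  refine ⟨2 * c, by linarith, ?_⟩
  intro M w0 P D hw0 hP hD T hT
  classical
  set A : Finset ℕ := Pool.Agent.H67.GT.prs {p | w0 < p} M with hA
  have memA : ∀ p : ℕ, p ∈ A ↔ (1 ≤ p ∧ p ≤ M) ∧ p.Prime ∧ w0 < p := by
    intro p
    rw [hA, Cnt_prs]
    exact Iff.rfl
  have hVdef : Pool.Agent.H67.GT.V {p | w0 < p} M = ∏ p ∈ A, (1 - 1 / (p : ℝ)) := rfl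
  have hfac : ∀ p : ℕ, p.Prime → (0 : ℝ) < 1 - 1 / (p : ℝ) := by
    intro p hp
    have h := Pool.Agent.H93.DC.one_sub_inv_pos hp
    rwa [← one_div] at h
  have hV0 : 0 < Pool.Agent.H67.GT.V {p | w0 < p} M := by
    rw [hVdef]
    exact Finset.prod_pos fun p hp => hfac p ((memA p).1 hp).2.1
  have hlw : 0 < Real.log w0 := Real.log_pos (by exact_mod_cast hw0)
  have hlM : 0 ≤ Real.log M := Real.log_natCast_nonneg M
  have hinv : (Pool.Agent.H67.GT.V {p | w0 < p} M)⁻¹ ≤ c * (1 + Real.log M / Real.log w0) := by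
    rcases le_or_gt M w0 with hM | hM
    · have hA0 : A = ∅ := by
        rw [Finset.eq_empty_iff_forall_notMem]
        intro p hp
        have := (memA p).1 hp
        omega
      rw [hVdef, hA0, Finset.prod_empty, inv_one]
      have : 0 ≤ Real.log M / Real.log w0 := by positivity
      nlinarith
    · have h := h3 {p | w0 < p} w0 M hw0 hM.le
      have hV1 : Pool.Agent.H67.GT.V {p | w0 < p} w0 = 1 := by
        unfold Pool.Agent.H67.GT.V
        have : Pool.Agent.H67.GT.prs {p | w0 < p} w0 = ∅ := by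
          rw [Finset.eq_empty_iff_forall_notMem]
          intro p hp
          rw [Cnt_prs] at hp
          have hp2 : w0 < p := hp.2.2
          omega
        rw [this, Finset.prod_empty]
      rw [hV1] at h
      have h5 : (Pool.Agent.H67.GT.V {p | w0 < p} M)⁻¹ ≤ c * (Real.log M / Real.log w0) := by
        rw [inv_le_iff_one_le_mul₀ hV0]
        exact h
      linarith
  have hVinv : ∏ p ∈ A, (1 - ((p : ℝ))⁻¹)⁻¹ = (Pool.Agent.H67.GT.V {p | w0 < p} M)⁻¹ := by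
    rw [hVdef, ← Finset.prod_inv_distrib]
    exact Finset.prod_congr rfl fun p _ => by rw [one_div]
  have hVi0 : 0 < (Pool.Agent.H67.GT.V {p | w0 < p} M)⁻¹ := inv_pos.2 hV0
  have hgp : ∀ p : ℕ, p.Prime → (1 : ℝ) ≤ (1 - ((p : ℝ))⁻¹)⁻¹ := by
    intro p hp
    have h8 := Pool.Agent.H93.DC.one_sub_inv_pos hp
    have h9 : (0 : ℝ) ≤ ((p : ℝ))⁻¹ := by positivity
    rw [one_le_inv₀ h8]
    linarith
  obtain ⟨F, hF⟩ : ∃ F : ℝ, F = ∏ p ∈ D, (1 - ((p : ℝ))⁻¹)⁻¹ := ⟨_, rfl⟩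
  have hF1 : 1 ≤ F := by
    rw [hF]
    calc (1 : ℝ) = ∏ p ∈ D, (1 : ℝ) := by rw [Finset.prod_const_one]
      _ ≤ _ := Finset.prod_le_prod (fun _ _ => zero_le_one) fun p hp => hgp p (hD p hp)
  rw [← hF]
  have h6 : ∑ m ∈ T, ((m : ℝ))⁻¹ ≤ 2 * (Pool.Agent.H67.GT.V {p | w0 < p} M)⁻¹ * F := by
    have h7 := Cnt_sum ((A \ D) ∪ (insert P D)) T (fun m hm => by
      obtain ⟨h1, h2, h3⟩ := hT m hm
      rw [Nat.mem_factoredNumbers_iff_forall_le]
      refine ⟨by omega, fun p hp hpp hd => ?_⟩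
      rw [Finset.mem_union, Finset.mem_insert, Finset.mem_sdiff, memA]
      rcases h3 p hpp hd with h | h | h
      · by_cases hpD : p ∈ D
        · exact Or.inr (Or.inr hpD)
        · left
          exact ⟨⟨⟨hpp.one_lt.le, hp.trans h2⟩, hpp, h⟩, hpD⟩
      · exact Or.inr (Or.inl h)
      · exact Or.inr (Or.inr h))
    refine h7.trans ?_
    have hAp : ∀ p ∈ ((A \ D) ∪ (insert P D)).filter Nat.Prime, (1 : ℝ) ≤ (1 - ((p : ℝ))⁻¹)⁻¹ := fun p hp =>
      hgp p (mem_filter.1 hp).2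
    -- split the product over the three pieces
    have hsub : ((A \ D) ∪ (insert P D)).filter Nat.Prime ⊆ (A ∪ D) ∪ ({P} : Finset ℕ).filter Nat.Prime := by
      intro p hp
      rw [mem_filter, mem_union, mem_sdiff, mem_insert] at hp
      rw [mem_union, mem_union, mem_filter, mem_singleton]
      rcases hp with ⟨(h | h | h), h'⟩
      · exact Or.inl (Or.inl h.1)
      · exact Or.inr ⟨h, h'⟩
      · exact Or.inl (Or.inr h)
    have hpr1 : ∀ p ∈ (A ∪ D) ∪ ({P} : Finset ℕ).filter Nat.Prime, p.Prime := by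
      intro p hp
      rw [mem_union, mem_union, mem_filter] at hp
      rcases hp with (h | h) | h
      · exact ((memA p).1 h).2.1
      · exact hD p h
      · exact h.2
    have hmono : ∀ U V : Finset ℕ, U ⊆ V → (∀ p ∈ V, p.Prime) →
        ∏ p ∈ U, (1 - ((p : ℝ))⁻¹)⁻¹ ≤ ∏ p ∈ V, (1 - ((p : ℝ))⁻¹)⁻¹ := by
      intro U V hUV hV
      rw [← Finset.prod_sdiff hUV]
      have hp1 : (0 : ℝ) ≤ ∏ p ∈ U, (1 - ((p : ℝ))⁻¹)⁻¹ := Finset.prod_nonneg fun p hp => by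
        have := hgp p (hV p (hUV hp))
        linarith
      have hp2 : (1 : ℝ) ≤ ∏ p ∈ V \ U, (1 - ((p : ℝ))⁻¹)⁻¹ := by
        calc (1 : ℝ) = ∏ p ∈ V \ U, (1 : ℝ) := by rw [Finset.prod_const_one]
          _ ≤ _ := Finset.prod_le_prod (fun _ _ => zero_le_one) fun p hp => hgp p (hV p (mem_sdiff.1 hp).1)
      exact le_mul_of_one_le_left hp1 hp2
    have hun : ∀ U V : Finset ℕ, (∀ p ∈ U, p.Prime) → (∀ p ∈ V, p.Prime) →
        ∏ p ∈ U ∪ V, (1 - ((p : ℝ))⁻¹)⁻¹ ≤ (∏ p ∈ U, (1 - ((p : ℝ))⁻¹)⁻¹) * ∏ p ∈ V, (1 - ((p : ℝ))⁻¹)⁻¹ := by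
      intro U V hU hV
      rw [← Finset.prod_union_inter]
      have hp1 : (0 : ℝ) ≤ ∏ p ∈ U ∪ V, (1 - ((p : ℝ))⁻¹)⁻¹ := Finset.prod_nonneg fun p hp => by
        rcases mem_union.1 hp with h | h
        · have := hgp p (hU p h); linarith
        · have := hgp p (hV p h); linarith
      have hp2 : (1 : ℝ) ≤ ∏ p ∈ U ∩ V, (1 - ((p : ℝ))⁻¹)⁻¹ := by
        calc (1 : ℝ) = ∏ p ∈ U ∩ V, (1 : ℝ) := by rw [Finset.prod_const_one]
          _ ≤ _ := Finset.prod_le_prod (fun _ _ => zero_le_one) fun p hp => hgp p (hU p (mem_inter.1 hp).1)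
      exact le_mul_of_one_le_right hp1 hp2
    have hAprime : ∀ p ∈ A, p.Prime := fun p hp => ((memA p).1 hp).2.1
    have hPprime : ∀ p ∈ ({P} : Finset ℕ).filter Nat.Prime, p.Prime := fun p hp => (mem_filter.1 hp).2
    have hADprime : ∀ p ∈ A ∪ D, p.Prime := by
      intro p hp
      rcases mem_union.1 hp with h | h
      · exact hAprime p h
      · exact hD p h
    have hP2 : ∏ p ∈ ({P} : Finset ℕ).filter Nat.Prime, (1 - ((p : ℝ))⁻¹)⁻¹ ≤ 2 := by
      rw [Finset.filter_singleton]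
      split_ifs with hPp
      · rw [Finset.prod_singleton]
        have h8 := Pool.Agent.H93.DC.one_sub_inv_pos hPp
        rw [inv_le_iff_one_le_mul₀ h8]
        have h9 : ((P : ℝ))⁻¹ ≤ 1 / 2 := by
          rw [inv_le_comm₀ (by exact_mod_cast hPp.pos) (by norm_num)]
          norm_num
          exact_mod_cast hPp.two_le
        linarith
      · rw [Finset.prod_empty]
        norm_num
    have hP0 : (0 : ℝ) ≤ ∏ p ∈ ({P} : Finset ℕ).filter Nat.Prime, (1 - ((p : ℝ))⁻¹)⁻¹ :=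
      Finset.prod_nonneg fun p hp => by
        have := hgp p (hPprime p hp)
        linarith
    calc ∏ p ∈ ((A \ D) ∪ (insert P D)).filter Nat.Prime, (1 - ((p : ℝ))⁻¹)⁻¹
        ≤ ∏ p ∈ (A ∪ D) ∪ ({P} : Finset ℕ).filter Nat.Prime, (1 - ((p : ℝ))⁻¹)⁻¹ := hmono _ _ hsub hpr1
      _ ≤ (∏ p ∈ A ∪ D, (1 - ((p : ℝ))⁻¹)⁻¹) * ∏ p ∈ ({P} : Finset ℕ).filter Nat.Prime, (1 - ((p : ℝ))⁻¹)⁻¹ :=
          hun _ _ hADprime hPprime
      _ ≤ ((∏ p ∈ A, (1 - ((p : ℝ))⁻¹)⁻¹) * ∏ p ∈ D, (1 - ((p : ℝ))⁻¹)⁻¹) * 2 := by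
          apply mul_le_mul (hun _ _ hAprime hD) hP2 hP0
          rw [hVinv, ← hF]
          positivity
      _ = 2 * (Pool.Agent.H67.GT.V {p | w0 < p} M)⁻¹ * F := by
          rw [hVinv, ← hF]
          ring
  refine h6.trans ?_
  have := mul_le_mul_of_nonneg_right (mul_le_mul_of_nonneg_left hinv (by norm_num : (0 : ℝ) ≤ 2)) (by linarith : (0 : ℝ) ≤ F)
  calc 2 * (Pool.Agent.H67.GT.V {p | w0 < p} M)⁻¹ * F ≤ 2 * (c * (1 + Real.log M / Real.log w0)) * F := this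
    _ = _ := by ring

open Classical in
lemma Cnd_cover (N w0 w z P : ℕ) (B D : Finset ℕ) (hw0 : 2 ≤ w0) (hww : w0 ≤ w) (hwz : w ≤ z) (hN : N < z ^ 2)
    (hD : ∀ p ∈ D, p ≤ w) :
    SD N w0 w z P B D ⊆ (sm N w ∪ B.biUnion (fun p => (Icc 1 N).filter (fun k => p ∣ k))) ∪
      ((if w < P then (Icc 1 N).filter (fun k => P ∣ k) else ∅) ∪
        ((Icc 1 (N / z)).filter (fun m => ∀ p : ℕ, p.Prime → p ∣ m → w0 < p ∨ p = P ∨ p ∈ D)).biUnion
          (fun s => (Nat.primesLE (N / s)).image (fun p => p * s))) := by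
  intro k hk
  rw [mem_SD] at hk
  obtain ⟨⟨h1, h2⟩, h3⟩ := hk
  rw [Finset.mem_union, Finset.mem_union, Finset.mem_union]
  by_cases hB : ∃ p ∈ B, p ∣ k
  · obtain ⟨p, hp, hd⟩ := hB
    left
    right
    rw [Finset.mem_biUnion]
    exact ⟨p, hp, by rw [Finset.mem_filter, Finset.mem_Icc]; exact ⟨⟨h1, h2⟩, hd⟩⟩
  by_cases hP : w < P ∧ P ∣ k
  · right
    left
    rw [if_pos hP.1, Finset.mem_filter, Finset.mem_Icc]
    exact ⟨⟨h1, h2⟩, hP.2⟩
  by_cases hs : ∀ p : ℕ, p.Prime → p ∣ k → p ≤ w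
  · left
    left
    exact mem_sm.2 ⟨⟨h1, h2⟩, hs⟩
  · right
    right
    push Not at hs hB
    obtain ⟨q, hq, hdq, hw⟩ := hs
    have hzq : z < q := by
      rcases h3 q hq hdq with h | h | h | h | h
      · omega
      · exact h
      · exact absurd ⟨by omega, h ▸ hdq⟩ hP
      · exact absurd hdq (hB q h)
      · exact absurd (hD q h) (by omega)
    obtain ⟨s, rfl⟩ := hdq
    have hs1 : 1 ≤ s := by
      rcases Nat.eq_zero_or_pos s with h | h
      · rw [h] at h1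
        omega
      · exact h
    have hsz : s ≤ N / z := by
      rw [Nat.le_div_iff_mul_le (by omega)]
      calc s * z ≤ s * q := Nat.mul_le_mul_left _ hzq.le
        _ = q * s := Nat.mul_comm _ _
        _ ≤ N := h2
    have hsz' : s < z := by
      refine lt_of_le_of_lt hsz ?_
      rw [Nat.div_lt_iff_lt_mul (by omega)]
      calc N < z ^ 2 := hN
        _ = z * z := by ring
    rw [Finset.mem_biUnion]
    refine ⟨s, ?_, ?_⟩
    · rw [Finset.mem_filter, Finset.mem_Icc]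
      refine ⟨⟨hs1, hsz⟩, fun p hp hd => ?_⟩
      have hple : p ≤ s := Nat.le_of_dvd (by omega) hd
      rcases h3 p hp (hd.trans (Nat.dvd_mul_left s q)) with h | h | h | h | h
      · exact Or.inl h.1
      · omega
      · exact Or.inr (Or.inl h)
      · exact absurd (hd.trans (Nat.dvd_mul_left s q)) (hB p h)
      · exact Or.inr (Or.inr h)
    · rw [Finset.mem_image]
      refine ⟨q, ?_, rfl⟩
      rw [Nat.mem_primesLE]
      exact ⟨(Nat.le_div_iff_mul_le (by omega)).2 h2, hq⟩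

theorem cnd : ∃ C : ℝ, 1 ≤ C ∧ ∀ (N w0 w z P : ℕ) (B D : Finset ℕ), 2 ≤ w0 → w0 ≤ w → w ≤ z → z ≤ N → N < z ^ 2 →
    (P = 0 ∨ P.Prime) → (∀ p ∈ D, p.Prime ∧ p ≤ w) →
    ((SD N w0 w z P B D).card : ℝ) * Real.log z ≤
      ((sm N w).card : ℝ) * Real.log z + (∑ p ∈ B, (1 : ℝ) / p + 1 / w) * N * Real.log z +
        C * (∏ p ∈ D, (1 - ((p : ℝ))⁻¹)⁻¹) * N * (1 + Real.log ((N : ℝ) / z) / Real.log w0) := by
  obtain ⟨C0, hC0, hm⟩ := cnd_m
  refine ⟨4 * C0, by linarith, ?_⟩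
  intro N w0 w z P B D hw0 hww hwz hzN hN hP hD
  classical
  obtain ⟨F, hF⟩ : ∃ F : ℝ, F = ∏ p ∈ D, (1 - ((p : ℝ))⁻¹)⁻¹ := ⟨_, rfl⟩
  have hlz : 0 ≤ Real.log z := Real.log_natCast_nonneg z
  have hz0 : (0 : ℝ) < z := by exact_mod_cast (by omega : 0 < z)
  have hN0 : (0 : ℝ) ≤ N := Nat.cast_nonneg _
  have hw00 : (0 : ℝ) < w := by exact_mod_cast (by omega : 0 < w)
  have hlw : 0 < Real.log w0 := Real.log_pos (by exact_mod_cast hw0)
  have hF0 : 0 ≤ F := by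
    rw [hF]
    exact Finset.prod_nonneg fun p hp => (inv_pos.2 (Pool.Agent.H93.DC.one_sub_inv_pos (hD p hp).1)).le
  set T : Finset ℕ := (Icc 1 (N / z)).filter (fun m => ∀ p : ℕ, p.Prime → p ∣ m → w0 < p ∨ p = P ∨ p ∈ D) with hT
  have h1 : ((SD N w0 w z P B D).card : ℝ) ≤
      ((sm N w).card + ∑ p ∈ B, N * (1 / (p : ℝ))) + (N * (1 / w) + ∑ s ∈ T, (Nat.primeCounting (N / s) : ℝ)) := by
    have e1 := (Finset.card_le_card (Cnd_cover N w0 w z P B D hw0 hww hwz hN fun p hp => (hD p hp).2)).trans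
      ((Finset.card_union_le _ _).trans (Nat.add_le_add (Finset.card_union_le _ _) (Finset.card_union_le _ _)))
    have e2 : ((SD N w0 w z P B D).card : ℝ) ≤ (((sm N w).card : ℝ) +
        ((B.biUnion (fun p => (Icc 1 N).filter (fun k => p ∣ k))).card : ℝ)) +
        (((if w < P then (Icc 1 N).filter (fun k => P ∣ k) else ∅ : Finset ℕ).card : ℝ) +
        ((T.biUnion (fun s => (Nat.primesLE (N / s)).image (fun p => p * s))).card : ℝ)) := by
      exact_mod_cast e1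
    refine e2.trans (add_le_add (add_le_add le_rfl ?_) (add_le_add ?_ ?_))
    · have e3 : ((B.biUnion (fun p => (Icc 1 N).filter (fun k => p ∣ k))).card : ℝ) ≤
          ∑ p ∈ B, (((Icc 1 N).filter (fun k => p ∣ k)).card : ℝ) := by
        exact_mod_cast Finset.card_biUnion_le
      exact e3.trans (Finset.sum_le_sum fun p _ => Cnt_mul N p)
    · split_ifs with h
      · refine (Cnt_mul N P).trans (mul_le_mul_of_nonneg_left ?_ hN0)
        exact one_div_le_one_div_of_le hw00 (by exact_mod_cast h.le)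
      · rw [Finset.card_empty, Nat.cast_zero]
        positivity
    · have e4 : ((T.biUnion (fun s => (Nat.primesLE (N / s)).image (fun p => p * s))).card : ℝ) ≤
          ∑ s ∈ T, (((Nat.primesLE (N / s)).image (fun p => p * s)).card : ℝ) := by
        exact_mod_cast Finset.card_biUnion_le
      refine e4.trans (Finset.sum_le_sum fun s _ => ?_)
      have e5 : ((Nat.primesLE (N / s)).image (fun p => p * s)).card ≤ Nat.primeCounting (N / s) := by
        refine Finset.card_image_le.trans ?_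
        rw [Nat.primesLE_card_eq_primeCounting]
      exact_mod_cast e5
  have h2 : ∀ s ∈ T, (Nat.primeCounting (N / s) : ℝ) * Real.log z ≤ 4 * N * ((s : ℝ))⁻¹ := by
    intro s hs
    rw [hT, Finset.mem_filter, Finset.mem_Icc] at hs
    have hsz : z ≤ N / s := by
      rw [Nat.le_div_iff_mul_le (by omega), Nat.mul_comm]
      exact (Nat.le_div_iff_mul_le (by omega)).1 hs.1.2
    have h3 : Real.log z ≤ Real.log ((N / s : ℕ) : ℝ) :=
      Real.log_le_log hz0 (by exact_mod_cast hsz)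
    have h4 : ((N / s : ℕ) : ℝ) ≤ (N : ℝ) / s := Nat.cast_div_le
    calc (Nat.primeCounting (N / s) : ℝ) * Real.log z
        ≤ (Nat.primeCounting (N / s) : ℝ) * Real.log ((N / s : ℕ) : ℝ) :=
          mul_le_mul_of_nonneg_left h3 (Nat.cast_nonneg _)
      _ ≤ 4 * ((N / s : ℕ) : ℝ) := pib (N / s)
      _ ≤ 4 * ((N : ℝ) / s) := by linarith
      _ = 4 * N * ((s : ℝ))⁻¹ := by rw [div_eq_mul_inv]; ring
  have h5 : ∑ s ∈ T, ((s : ℝ))⁻¹ ≤ C0 * F * (1 + Real.log ((N : ℝ) / z) / Real.log w0) := by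
    have h6 := hm (N / z) w0 P D hw0 hP (fun p hp => (hD p hp).1) T (fun m hm => by
      rw [hT, Finset.mem_filter, Finset.mem_Icc] at hm
      exact ⟨hm.1.1, hm.1.2, hm.2⟩)
    rw [← hF] at h6
    refine h6.trans (mul_le_mul_of_nonneg_left ?_ (mul_nonneg (by linarith) hF0))
    have h7 : (1 : ℝ) ≤ ((N / z : ℕ) : ℝ) := by
      exact_mod_cast (Nat.one_le_div_iff (by omega)).2 hzN
    have h8 : ((N / z : ℕ) : ℝ) ≤ (N : ℝ) / z := Nat.cast_div_le
    have h9 := Real.log_le_log (by linarith) h8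
    have h10 := div_le_div_of_nonneg_right h9 hlw.le
    linarith
  rw [← hF]
  calc ((SD N w0 w z P B D).card : ℝ) * Real.log z
      ≤ (((sm N w).card + ∑ p ∈ B, N * (1 / (p : ℝ))) + (N * (1 / w) + ∑ s ∈ T, (Nat.primeCounting (N / s) : ℝ))) *
          Real.log z := mul_le_mul_of_nonneg_right h1 hlz
    _ = ((sm N w).card : ℝ) * Real.log z + (∑ p ∈ B, (1 : ℝ) / p + 1 / w) * N * Real.log z +
          ∑ s ∈ T, (Nat.primeCounting (N / s) : ℝ) * Real.log z := by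
        rw [← Finset.mul_sum, ← Finset.sum_mul]
        ring
    _ ≤ ((sm N w).card : ℝ) * Real.log z + (∑ p ∈ B, (1 : ℝ) / p + 1 / w) * N * Real.log z +
          ∑ s ∈ T, 4 * N * ((s : ℝ))⁻¹ := by
        have := Finset.sum_le_sum h2
        linarith
    _ = ((sm N w).card : ℝ) * Real.log z + (∑ p ∈ B, (1 : ℝ) / p + 1 / w) * N * Real.log z +
          4 * N * ∑ s ∈ T, ((s : ℝ))⁻¹ := by
        rw [Finset.mul_sum]
    _ ≤ _ := by
        have := mul_le_mul_of_nonneg_left h5 (by linarith : (0 : ℝ) ≤ 4 * N)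
        linarith

end H73MA
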