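import Pool.Agent.H73.MA.Cnd

/-!
# A centre `c` for an arbitrary set `H`: few small primes divide a difference `h - c`
-/

set_option autoImplicit false

namespace H73MA

open Finset

/-- the integers of `[1, N]` in a residue class -/
lemma Ctr_cls (N p v : ℕ) (hp : 0 < p) :
    (((Icc 1 N).filter (fun c : ℕ => c ≡ v [MOD p])).card : ℝ) ≤ (N : ℝ) / p + 1 := by
  have h1 : (Icc 1 N).filter (fun c : ℕ => c ≡ v [MOD p]) = (Ioc 0 N).filter (fun c : ℕ => c ≡ v [MOD p]) := by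
    ext k
    simp only [Finset.mem_filter, Finset.mem_Icc, Finset.mem_Ioc]
    constructor
    · rintro ⟨⟨h1, h2⟩, h3⟩
      exact ⟨⟨by omega, h2⟩, h3⟩
    · rintro ⟨⟨h1, h2⟩, h3⟩
      exact ⟨⟨by omega, h2⟩, h3⟩
  rw [h1]
  have h2 := Nat.Ioc_filter_modEq_card 0 N hp v
  have h3 : (((Ioc 0 N).filter (fun c : ℕ => c ≡ v [MOD p])).card : ℤ) ≤ ((⌊((N : ℚ) - v) / p⌋ - ⌊((0 : ℕ) - v : ℚ) / p⌋) ⊔ 0 : ℤ) :=
    h2.le
  have hpQ : (0 : ℚ) < p := by exact_mod_cast hp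
  have h4 : ((⌊((N : ℚ) - v) / p⌋ : ℤ) : ℚ) ≤ ((N : ℚ) - v) / p := Int.floor_le _
  have h5 : (((0 : ℕ) - v : ℚ) / p) < ((⌊((0 : ℕ) - v : ℚ) / p⌋ : ℤ) : ℚ) + 1 := Int.lt_floor_add_one _
  have h6 : ((N : ℚ) - v) / p - ((0 : ℕ) - v : ℚ) / p = (N : ℚ) / p := by
    push_cast
    field_simp
    ring
  have h7 : ((((Ioc 0 N).filter (fun c : ℕ => c ≡ v [MOD p])).card : ℤ) : ℚ) ≤ (N : ℚ) / p + 1 := by
    have h8 : ((((Ioc 0 N).filter (fun c : ℕ => c ≡ v [MOD p])).card : ℤ) : ℚ) ≤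
        (((⌊((N : ℚ) - v) / p⌋ - ⌊((0 : ℕ) - v : ℚ) / p⌋) ⊔ 0 : ℤ) : ℚ) := by exact_mod_cast h3
    refine h8.trans ?_
    rcases le_total (⌊((N : ℚ) - v) / p⌋ - ⌊((0 : ℕ) - v : ℚ) / p⌋) 0 with h | h
    · rw [max_eq_right h]
      push_cast
      positivity
    · rw [max_eq_left h]
      push_cast at h5 h6 ⊢
      linarith
  have h9 : ((((((Ioc 0 N).filter (fun c : ℕ => c ≡ v [MOD p])).card : ℤ) : ℚ)) : ℝ) ≤ (((N : ℚ) / p + 1 : ℚ) : ℝ) := by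
    exact_mod_cast h7
  push_cast at h9
  exact h9

lemma Ctr_sq (w : ℕ) : ∑ p ∈ (Icc 1 w).filter Nat.Prime, (1 : ℝ) / p * (1 / p) ≤ 1 := by
  rcases Nat.lt_or_ge w 1 with h | h
  · have : (Icc 1 w) = ∅ := Finset.Icc_eq_empty (by omega)
    rw [this, Finset.filter_empty, Finset.sum_empty]
    norm_num
  have h1 := sum_Ioc_inv_sq_le_sub (α := ℝ) (k := 1) (n := w) (by norm_num) h
  have h2 : ∑ p ∈ (Icc 1 w).filter Nat.Prime, (1 : ℝ) / p * (1 / p) ≤ ∑ i ∈ Ioc 1 w, ((i : ℝ) ^ 2)⁻¹ := by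
    calc ∑ p ∈ (Icc 1 w).filter Nat.Prime, (1 : ℝ) / p * (1 / p)
        = ∑ p ∈ (Icc 1 w).filter Nat.Prime, ((p : ℝ) ^ 2)⁻¹ := by
          refine Finset.sum_congr rfl fun p _ => ?_
          rw [one_div, ← mul_inv, sq]
      _ ≤ ∑ i ∈ Ioc 1 w, ((i : ℝ) ^ 2)⁻¹ := by
          refine Finset.sum_le_sum_of_subset_of_nonneg ?_ fun _ _ _ => by positivity
          intro p hp
          rw [mem_filter, mem_Icc] at hp
          rw [mem_Ioc]
          exact ⟨hp.2.one_lt, hp.1.2⟩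
  have h3 : (0 : ℝ) ≤ ((w : ℝ))⁻¹ := by positivity
  push_cast at h1
  linarith

lemma Ctr_one (w : ℕ) : ∑ p ∈ (Icc 1 w).filter Nat.Prime, (1 : ℝ) / p ≤ w := by
  calc ∑ p ∈ (Icc 1 w).filter Nat.Prime, (1 : ℝ) / p ≤ ∑ p ∈ (Icc 1 w).filter Nat.Prime, (1 : ℝ) := by
        refine Finset.sum_le_sum fun p hp => ?_
        rw [mem_filter, mem_Icc] at hp
        rw [div_le_one (by exact_mod_cast (by omega : 0 < p))]
        exact_mod_cast hp.1.1
    _ = ((Icc 1 w).filter Nat.Prime).card := by rw [Finset.sum_const, nsmul_eq_mul, mul_one]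
    _ ≤ w := by
        have := Finset.card_filter_le (Icc 1 w) Nat.Prime
        rw [Nat.card_Icc] at this
        exact_mod_cast (by omega : ((Icc 1 w).filter Nat.Prime).card ≤ w)

open Classical in
/-- the choice of the centre -/
theorem ctr {N w0 κ : ℕ} {H : Finset ℕ} (hH : H.card ≤ κ) (hκ : 2 * κ ≤ N) (hN : 1 ≤ N) (hw : w0 ≤ N) :
    ∃ c : ℕ, 1 ≤ c ∧ c ≤ N ∧ c ∉ H ∧
      ∑ h ∈ H, ∑ p ∈ ((Icc 1 w0).filter Nat.Prime).filter (fun p : ℕ => c ≡ h [MOD p]), (1 : ℝ) / p ≤ 4 * κ := by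
  set Pr : Finset ℕ := (Icc 1 w0).filter Nat.Prime with hPr
  set U : Finset ℕ := Icc 1 N \ H with hU
  have hUc : (N : ℝ) / 2 ≤ U.card := by
    have h1 : N - κ ≤ U.card := by
      have h2 := Finset.le_card_sdiff H (Icc 1 N)
      rw [Nat.card_Icc] at h2
      rw [hU]
      omega
    have h2 : (N : ℝ) ≤ U.card + κ := by exact_mod_cast (by omega : N ≤ U.card + κ)
    have h3 : 2 * (κ : ℝ) ≤ N := by exact_mod_cast hκ
    linarith
  have hNR : (1 : ℝ) ≤ N := by exact_mod_cast hN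
  have hwR : (w0 : ℝ) ≤ N := by exact_mod_cast hw
  have hHR : (H.card : ℝ) ≤ κ := by exact_mod_cast hH
  have hsum : ∑ c ∈ U, ∑ h ∈ H, ∑ p ∈ Pr.filter (fun p : ℕ => c ≡ h [MOD p]), (1 : ℝ) / p ≤ ∑ _c ∈ U, 4 * (κ : ℝ) := by
    have h1 : ∑ c ∈ U, ∑ h ∈ H, ∑ p ∈ Pr.filter (fun p : ℕ => c ≡ h [MOD p]), (1 : ℝ) / p =
        ∑ h ∈ H, ∑ p ∈ Pr, ((U.filter (fun c : ℕ => c ≡ h [MOD p])).card : ℝ) * (1 / p) := by
      rw [Finset.sum_comm]
      refine Finset.sum_congr rfl fun h _ => ?_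
      have h2 : ∀ c ∈ U, ∑ p ∈ Pr.filter (fun p : ℕ => c ≡ h [MOD p]), (1 : ℝ) / p =
          ∑ p ∈ Pr, if c ≡ h [MOD p] then (1 : ℝ) / p else 0 := fun c _ => by rw [Finset.sum_filter]
      rw [Finset.sum_congr rfl h2, Finset.sum_comm]
      refine Finset.sum_congr rfl fun p _ => ?_
      rw [← Finset.sum_filter, Finset.sum_const, nsmul_eq_mul]
    rw [h1]
    have h3 : ∀ h ∈ H, ∑ p ∈ Pr, ((U.filter (fun c : ℕ => c ≡ h [MOD p])).card : ℝ) * (1 / p) ≤ 2 * N := by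
      intro h _
      have h4 : ∀ p ∈ Pr, ((U.filter (fun c : ℕ => c ≡ h [MOD p])).card : ℝ) * (1 / p) ≤
          N * ((1 : ℝ) / p * (1 / p)) + 1 / p := by
        intro p hp
        rw [hPr, mem_filter, mem_Icc] at hp
        have h5 := Ctr_cls N p h (by omega)
        have h6 : ((U.filter (fun c : ℕ => c ≡ h [MOD p])).card : ℝ) ≤
            (((Icc 1 N).filter (fun c : ℕ => c ≡ h [MOD p])).card : ℝ) := by
          exact_mod_cast Finset.card_le_card (Finset.filter_subset_filter _ Finset.sdiff_subset)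
        have h7 : (0 : ℝ) ≤ 1 / p := by positivity
        calc ((U.filter (fun c : ℕ => c ≡ h [MOD p])).card : ℝ) * (1 / p) ≤ ((N : ℝ) / p + 1) * (1 / p) :=
              mul_le_mul_of_nonneg_right (h6.trans h5) h7
          _ = N * ((1 : ℝ) / p * (1 / p)) + 1 / p := by ring
      refine (Finset.sum_le_sum h4).trans ?_
      rw [Finset.sum_add_distrib, ← Finset.mul_sum]
      have h8 := Ctr_sq w0
      have h9 := Ctr_one w0
      rw [← hPr] at h8 h9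
      have h10 := mul_le_mul_of_nonneg_left h8 (show (0 : ℝ) ≤ N by linarith)
      linarith
    refine (Finset.sum_le_sum h3).trans ?_
    rw [Finset.sum_const, Finset.sum_const, nsmul_eq_mul, nsmul_eq_mul]
    have h11 : (H.card : ℝ) * (2 * N) ≤ κ * (2 * N) := mul_le_mul_of_nonneg_right hHR (by linarith)
    have h12 : (N : ℝ) / 2 * (4 * κ) ≤ U.card * (4 * κ) := mul_le_mul_of_nonneg_right hUc (by positivity)
    linarith
  have hne : U.Nonempty := by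
    rw [← Finset.card_pos]
    have : (0 : ℝ) < U.card := by linarith
    exact_mod_cast this
  obtain ⟨c, hc, hle⟩ := Finset.exists_le_of_sum_le hne hsum
  rw [hU, mem_sdiff, mem_Icc] at hc
  exact ⟨c, hc.1.1, hc.1.2, hc.2, hle⟩

lemma Ctr_fac {p : ℕ} (hp : p.Prime) : (1 - ((p : ℝ))⁻¹)⁻¹ ≤ Real.exp (2 * (1 / p)) := by
  have hp2 : (2 : ℝ) ≤ p := by exact_mod_cast hp.two_le
  have h1 : ((p : ℝ))⁻¹ ≤ 1 / 2 := by
    rw [inv_le_comm₀ (by linarith) (by norm_num)]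
    linarith
  have h0 : (0 : ℝ) < ((p : ℝ))⁻¹ := by positivity
  rw [one_div]
  set t : ℝ := ((p : ℝ))⁻¹ with ht
  have h4 : 1 + 2 * t ≤ Real.exp (2 * t) := by linarith [Real.add_one_le_exp (2 * t)]
  rw [inv_le_iff_one_le_mul₀ (by linarith)]
  have h5 : (1 : ℝ) ≤ (1 + 2 * t) * (1 - t) := by nlinarith
  exact h5.trans (mul_le_mul_of_nonneg_right h4 (by linarith))

/-- the product over a set of primes -/
theorem Ctr_prod {D : Finset ℕ} (hD : ∀ p ∈ D, p.Prime) {s : ℝ} (hs : ∑ p ∈ D, (1 : ℝ) / p ≤ s) :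
    ∏ p ∈ D, (1 - ((p : ℝ))⁻¹)⁻¹ ≤ Real.exp (2 * s) := by
  calc ∏ p ∈ D, (1 - ((p : ℝ))⁻¹)⁻¹ ≤ ∏ p ∈ D, Real.exp (2 * (1 / p)) :=
        Finset.prod_le_prod (fun p hp => (inv_pos.2 (Pool.Agent.H93.DC.one_sub_inv_pos (hD p hp))).le)
          fun p hp => Ctr_fac (hD p hp)
    _ = Real.exp (2 * ∑ p ∈ D, (1 : ℝ) / p) := by rw [← Real.exp_sum, Finset.mul_sum]
    _ ≤ _ := Real.exp_le_exp.2 (by linarith)

/-- few primes divide a difference `k - h` (helper5's `prd_card`) -/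
theorem Ctr_card {N : ℕ} {H D : Finset ℕ} {k : ℕ} (hN : 1 ≤ N) (hH : ∀ h ∈ H, 1 ≤ h ∧ h ≤ N)
    (hk1 : 1 ≤ k) (hkN : k ≤ N) (hkH : k ∉ H) (hD : ∀ p ∈ D, p.Prime ∧ ∃ h ∈ H, k ≡ h [MOD p]) :
    (D.card : ℝ) ≤ 2 * H.card * Real.log N := by
  set m : ℕ := ∏ h ∈ H, ((k : ℤ) - h).natAbs with hm
  have hne : ∀ h ∈ H, 1 ≤ ((k : ℤ) - h).natAbs ∧ ((k : ℤ) - h).natAbs ≤ N := by
    intro h hh
    have h1 := hH h hh
    have h2 : k ≠ h := fun e => hkH (e ▸ hh)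
    omega
  have hm1 : m ≤ N ^ H.card := by
    rw [hm]
    exact Finset.prod_le_pow_card _ _ _ fun h hh => (hne h hh).2
  have hm0 : 0 < m := Finset.prod_pos fun h hh => (hne h hh).1
  have hdvd : ∏ p ∈ D, p ∣ m := by
    refine Finset.prod_primes_dvd m (fun p hp => (hD p hp).1.prime) fun p hp => ?_
    obtain ⟨_, h, hh, hkh⟩ := hD p hp
    have h1 : (p : ℤ) ∣ (k : ℤ) - h := by
      have := (Nat.modEq_iff_dvd.1 hkh)
      rw [← dvd_neg]
      have e : -((k : ℤ) - h) = (h : ℤ) - k := by ring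
      rw [e]
      exact this
    have h2 : p ∣ ((k : ℤ) - h).natAbs := Int.natCast_dvd.1 h1
    exact h2.trans (Finset.dvd_prod_of_mem (fun h : ℕ => ((k : ℤ) - h).natAbs) hh)
  have h2 : 2 ^ D.card ≤ ∏ p ∈ D, p := by
    have := Finset.pow_card_le_prod D (fun p : ℕ => p) 2 fun p hp => (hD p hp).1.two_le
    exact this
  have h3 : 2 ^ D.card ≤ N ^ H.card := h2.trans ((Nat.le_of_dvd hm0 hdvd).trans hm1)
  have h4 : ((2 : ℝ)) ^ D.card ≤ (N : ℝ) ^ H.card := by exact_mod_cast h3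
  have h5 := Real.log_le_log (by positivity) h4
  rw [Real.log_pow, Real.log_pow] at h5
  have h6 : (1 : ℝ) / 2 ≤ Real.log 2 := by
    have := Real.log_two_gt_d9
    linarith
  have h7 : (0 : ℝ) ≤ D.card := Nat.cast_nonneg _
  nlinarith

end H73MA
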