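import Pool.Agent.H73.MA.Cmb
import Pool.Agent.H5.CP.Par

/-!
# Presieve for an arbitrary admissible set: parameters (adapted from helper5's `presieve_gen`)
-/

set_option autoImplicit false

namespace H73MA

open Finset Filter Pool.Agent.H7.LG Pool.Agent.H7.LX Pool.Agent.H67.GT H5CP

/-- PRESIEVE FOR ARBITRARY ADMISSIBLE SETS -/
theorem presA (κ : ℕ) (ε : ℝ) (hε : 0 < ε) : ∃ c : ℝ, 0 < c ∧ ∃ y0 : ℝ, ∀ y : ℝ, y0 ≤ y →
    ∃ w z N : ℕ, 2 ≤ w ∧ w ≤ z ∧ (w : ℝ) ≤ y ^ (1 / 100 : ℝ) ∧ 400 * (z : ℝ) ≤ y ∧ y ≤ 800 * (z : ℝ) ∧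
    4 * (N : ℝ) ≤ y ^ 2 ∧
    c * y * Real.log y ^ 2 * Real.log (Real.log (Real.log y)) / Real.log (Real.log y) ^ 2 ≤ (N : ℝ) ∧
    ∀ (P : ℕ) (B : Finset ℕ), (P = 0 ∨ P.Prime) → (∀ p ∈ B, p.Prime ∧ w < p ∧ p ≤ z) →
      ∑ p ∈ B, (1 : ℝ) / p ≤ 1 / Real.log y ^ 2 → ∀ H : Finset ℕ, H.card ≤ κ → (∀ h ∈ H, 1 ≤ h ∧ h ≤ N) → Adm H →
      ∃ b : ℕ, b < WW z P B ∧ (∀ h ∈ H, Nat.Coprime (b + h) (WW z P B)) ∧
        (((Icc 1 N).filter (fun k : ℕ => Nat.Coprime (b + k) (WW z P B))).card : ℝ) ≤ ε * y := by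
  obtain ⟨C, hC, hsmo⟩ := smo
  obtain ⟨C1, hC1, hprd⟩ := prd
  obtain ⟨C2', hC2', hcnt⟩ := cnd
  obtain ⟨C2, hC2d⟩ : ∃ C2 : ℝ, C2 = C2' * Real.exp (8 * κ) := ⟨_, rfl⟩
  have hE8 : 1 ≤ Real.exp (8 * (κ : ℝ)) := Real.one_le_exp (by positivity)
  have hC2 : 1 ≤ C2 := by
    rw [hC2d]
    nlinarith
  have h4κ : (1 : ℝ) ≤ 4 ^ (κ + 1) := one_le_pow₀ (by norm_num)
  obtain ⟨D, hD⟩ : ∃ D : ℝ, D = 64 * (2 * (2 * C + 1) + 2 + 4 * (2 * C2)) * C1 * Real.exp (8 * ((κ + 1 : ℕ) : ℝ)) * 4 ^ (κ + 1) := ⟨_, rfl⟩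
  have hD0 : 0 < D := by rw [hD]; positivity
  obtain ⟨c, hc0, hc1, hc2⟩ : ∃ c : ℝ, 0 < c ∧ 4 ^ (κ + 1) * c ≤ 1 / 4 ∧ 2 * (D * c) ≤ ε := by
    refine ⟨min (1 / (4 * 4 ^ (κ + 1))) (ε / (2 * D)), by positivity, ?_, ?_⟩
    · have h := min_le_left (1 / (4 * 4 ^ (κ + 1)) : ℝ) (ε / (2 * D))
      have h2 := mul_le_mul_of_nonneg_left h (show (0 : ℝ) ≤ 4 ^ (κ + 1) by positivity)
      refine h2.trans (le_of_eq ?_)
      field_simp
    · have h := min_le_right (1 / (4 * 4 ^ (κ + 1)) : ℝ) (ε / (2 * D))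
      rw [le_div_iff₀ (by positivity)] at h
      linarith
  have hc12 : c ≤ 1 / 2 := by
    have := mul_le_mul_of_nonneg_right h4κ hc0.le
    linarith
  obtain ⟨y1, hy1⟩ := par_ev (max (max C (1 / c)) (2 * C + 400))
  obtain ⟨y2, hy2⟩ := cp_ev (κ + 1) ε hε
  refine ⟨c, hc0, max (max y1 1) y2, fun y hyy => ?_⟩
  obtain ⟨h1, h2, h3, h4, h5, h6, hy⟩ := hy1 y (((le_max_left _ _).trans (le_max_left _ _)).trans hyy)
  have hyy1 : 1 ≤ y := ((le_max_right _ _).trans (le_max_left _ _)).trans hyy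
  obtain ⟨g1, g2, g3, g4⟩ := hy2 y ((le_max_right _ _).trans hyy)
  obtain ⟨L1, hL1⟩ : ∃ L1 : ℝ, L1 = Real.log y := ⟨_, rfl⟩
  rw [← hL1] at h1 h2 h3 h4 h5 h6 g1 g3 ⊢
  obtain ⟨L2, hL2⟩ : ∃ L2 : ℝ, L2 = Real.log L1 := ⟨_, rfl⟩
  rw [← hL2] at h2 h3 h4 h5 ⊢
  obtain ⟨L3, hL3⟩ : ∃ L3 : ℝ, L3 = Real.log L2 := ⟨_, rfl⟩
  rw [← hL3] at h3 ⊢
  have b1 : C ≤ L3 := le_trans (le_trans (le_max_left _ _) (le_max_left _ _)) h3
  have b2 : 1 / c ≤ L1 := le_trans (le_trans (le_max_right _ _) (le_max_left _ _)) h1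
  have b3 : 2 * C + 400 ≤ L2 := le_trans (le_max_right _ _) h2
  have b4 : 2 * C + 400 ≤ L3 := le_trans (le_max_right _ _) h3
  have b5 : 2 * C + 400 ≤ L1 := le_trans (le_max_right _ _) h1
  clear h1 h2 h3 hy1 hy2
  have hL3p : 0 < L3 := by linarith
  have hL2p : 0 < L2 := by linarith
  have hL1p : 0 < L1 := by linarith
  have eL1 : Real.exp L1 = y := by rw [hL1, Real.exp_log hy]
  have eL2 : Real.exp L2 = L1 := by rw [hL2, Real.exp_log hL1p]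
  have eL3 : Real.exp L3 = L2 := by rw [hL3, Real.exp_log hL2p]
  have hL32 : L3 ≤ L2 := by linarith [Real.add_one_le_exp L3]
  have hL32' : 25 * L3 ≤ L2 := by
    have h9 := Real.quadratic_le_exp_of_nonneg hL3p.le
    have h10 := mul_le_mul_of_nonneg_right (show (50 : ℝ) ≤ L3 by linarith) hL3p.le
    rw [eL3] at h9
    linarith
  obtain ⟨hω1, hω2⟩ := par_om (by linarith) hL32 h5
  obtain ⟨hw2, hlw1, hlw2, hwy⟩ := par_w (ω := L1 * L3 / (4 * L2)) (L1 := L1) (y := y) (by linarith) hω1 eL1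
  obtain ⟨hfy, hf2⟩ := par_f (c := c) hc0 hc12 hy b2 (by linarith) hL32 h4
  obtain ⟨ω, hω⟩ : ∃ ω : ℝ, ω = L1 * L3 / (4 * L2) := ⟨_, rfl⟩
  have hω3 : ω ≤ L1 / 100 := by
    rw [hω, div_le_div_iff₀ (by positivity) (by norm_num)]
    have := mul_le_mul_of_nonneg_left hL32' hL1p.le
    linarith
  rw [← hω] at hω1 hω2 hw2 hlw1 hlw2 hwy
  obtain ⟨w, hw⟩ : ∃ w : ℕ, w = ⌊Real.exp ω⌋₊ := ⟨_, rfl⟩
  rw [← hw] at hw2 hlw1 hlw2 hwy
  obtain ⟨f, hf⟩ : ∃ f : ℝ, f = c * y * L1 ^ 2 * L3 / L2 ^ 2 := ⟨_, rfl⟩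
  rw [← hf] at hfy hf2 ⊢
  have hlwp : 0 < Real.log w := by linarith
  have hf0 : 0 < f := by linarith
  have hwpos : (0 : ℝ) < w := by
    have : (2 : ℝ) ≤ w := by exact_mod_cast hw2
    linarith
  -- `z`
  have hyL : 1600 * L1 ≤ y := by
    have h9 := mul_le_mul_of_nonneg_right (show (1 : ℝ) ≤ L1 by linarith) hL1p.le
    linarith [mul_pos hL1p hL1p]
  obtain ⟨z, hzdef⟩ : ∃ z : ℕ, z = ⌊y / 400⌋₊ := ⟨_, rfl⟩
  have hz400 : (z : ℝ) ≤ y / 400 := by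
    rw [hzdef]
    exact Nat.floor_le (by positivity)
  have hzle : (z : ℝ) ≤ y / 100 := by linarith
  have hzlt : y / 400 < z + 1 := by
    rw [hzdef]
    exact Nat.lt_floor_add_one _
  clear hzdef
  have hz800 : y / 800 ≤ z := by linarith
  have hzpos : (0 : ℝ) < z := by linarith
  -- `w ≤ y^(1/100)`, `w ≤ z`
  have hwexp : (w : ℝ) ≤ Real.exp ω := by rw [hw]; exact Nat.floor_le (Real.exp_pos _).le
  have hwy2 : (w : ℝ) ≤ y ^ (1 / 100 : ℝ) := by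
    refine hwexp.trans ?_
    rw [Real.rpow_def_of_pos hy, ← hL1]
    apply Real.exp_le_exp.2
    linarith
  have hwz : w ≤ z := by
    have h8 : (w : ℝ) < z + 1 := by linarith
    have h9 : w < z + 1 := by exact_mod_cast h8
    omega
  have hω4 : 5 * L2 ≤ ω / 2 := by
    have h9 : 40 * L2 ^ 2 ≤ L1 * L3 := by
      have h10 := mul_le_mul_of_nonneg_left (show (40 : ℝ) ≤ L3 by linarith) hL1p.le
      linarith
    rw [hω, div_div, le_div_iff₀ (by positivity)]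
    linarith
  have hwL5 : L1 ^ 5 ≤ (w : ℝ) := by
    rw [← Real.log_le_log_iff (by positivity) hwpos, Real.log_pow, ← hL2]
    push_cast
    linarith
  have hL1400 : 400 ≤ L1 := by linarith
  have hwL : 2 * L1 ^ 2 * (4 * (κ + 1) * L1) ≤ (w : ℝ) := by
    refine le_trans ?_ hwL5
    have e1 : ((κ + 1 : ℕ) : ℝ) ≤ L1 := g1
    push_cast at e1
    have e2 : 2 * L1 ^ 2 * (4 * (κ + 1) * L1) ≤ 2 * L1 ^ 2 * (4 * L1 * L1) := by
      apply mul_le_mul_of_nonneg_left _ (by positivity)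
      apply mul_le_mul_of_nonneg_right _ hL1p.le
      linarith
    have e3 : 2 * L1 ^ 2 * (4 * L1 * L1) = 8 * L1 ^ 4 := by ring
    have e4 : L1 ^ 5 = L1 * L1 ^ 4 := by ring
    have e5 : 8 * L1 ^ 4 ≤ L1 * L1 ^ 4 := mul_le_mul_of_nonneg_right (by linarith) (by positivity)
    linarith
  have hL1sq : L1 + 1 ≤ L1 ^ 2 := by
    have h9 := mul_le_mul_of_nonneg_right (show (2 : ℝ) ≤ L1 by linarith) hL1p.le
    rw [sq]
    linarith
  -- `w0`
  obtain ⟨w0, hw0a, hw0b⟩ : ∃ w0 : ℕ, L1 ≤ w0 ∧ (w0 : ℝ) < L1 + 1 := ⟨⌈L1⌉₊, Nat.le_ceil _, Nat.ceil_lt_add_one hL1p.le⟩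
  have hw0p : (0 : ℝ) < w0 := by linarith
  have hw02 : 2 ≤ w0 := by
    have : (2 : ℝ) ≤ w0 := by linarith
    exact_mod_cast this
  have hw0κ : κ + 1 ≤ w0 := by
    have : ((κ + 1 : ℕ) : ℝ) ≤ w0 := by linarith
    exact_mod_cast this
  have hL15 : L1 ^ 2 ≤ L1 ^ 5 := pow_le_pow_right₀ (by linarith) (by norm_num)
  have hw0w : w0 ≤ w := by
    have : (w0 : ℝ) ≤ w := by linarith
    exact_mod_cast this
  have hlw0a : L2 ≤ Real.log w0 := by rw [hL2]; exact Real.log_le_log hL1p hw0a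
  have hlw0b : Real.log w0 ≤ 2 * L2 := by
    have h9 := Real.log_le_log hw0p (show (w0 : ℝ) ≤ L1 ^ 2 by linarith)
    rw [Real.log_pow, ← hL2] at h9
    push_cast at h9
    exact h9
  -- `N`
  obtain ⟨G, hfG, hGf⟩ : ∃ G : ℕ, f ≤ G ∧ (G : ℝ) < f + 1 := ⟨⌈f⌉₊, Nat.le_ceil _, Nat.ceil_lt_add_one hf0.le⟩
  have hy1 : 1 ≤ f := by linarith
  have hG2 : (G : ℝ) ≤ 2 * f := by linarith
  obtain ⟨N, hN⟩ : ∃ N : ℕ, N = 4 ^ (κ + 1) * G := ⟨_, rfl⟩
  have hNr : (N : ℝ) = 4 ^ (κ + 1) * G := by rw [hN]; push_cast; ring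
  have hNf : (N : ℝ) ≤ 4 ^ (κ + 1) * (2 * f) := by
    rw [hNr]
    exact mul_le_mul_of_nonneg_left hG2 (by positivity)
  have hGN : G ≤ N := by rw [hN]; exact Nat.le_mul_of_pos_left G (by positivity)
  have hGNr : (G : ℝ) ≤ N := by exact_mod_cast hGN
  have hyN : y ≤ N := by linarith
  have hNpos : (0 : ℝ) < N := by linarith
  have hfL : 4 ^ (κ + 1) * (2 * f) ≤ y * L1 ^ 2 / 2 := by
    have e1 : f * L2 ^ 2 = c * y * L1 ^ 2 * L3 := by
      rw [hf]; field_simp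
    have e2 : L3 ≤ L2 ^ 2 := by
      have h9 := mul_le_mul_of_nonneg_right (show (1 : ℝ) ≤ L2 by linarith) hL2p.le
      rw [sq]
      linarith
    have e3 : f ≤ c * (y * L1 ^ 2) := by
      have h9 : f * L2 ^ 2 ≤ (c * (y * L1 ^ 2)) * L2 ^ 2 := by
        rw [e1]
        calc c * y * L1 ^ 2 * L3 = (c * (y * L1 ^ 2)) * L3 := by ring
          _ ≤ (c * (y * L1 ^ 2)) * L2 ^ 2 := mul_le_mul_of_nonneg_left e2 (by positivity)
      exact le_of_mul_le_mul_right h9 (by positivity)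
    have e4 : 4 ^ (κ + 1) * (2 * f) ≤ 2 * ((4 ^ (κ + 1) * c) * (y * L1 ^ 2)) := by
      have := mul_le_mul_of_nonneg_left e3 (show (0 : ℝ) ≤ 2 * 4 ^ (κ + 1) by positivity)
      linarith
    have e5 : (4 ^ (κ + 1) * c) * (y * L1 ^ 2) ≤ 1 / 4 * (y * L1 ^ 2) :=
      mul_le_mul_of_nonneg_right hc1 (by positivity)
    linarith
  have hNy : (N : ℝ) ≤ y * L1 ^ 2 / 2 := hNf.trans hfL
  have hNy' : (N : ℝ) ≤ y * L1 ^ 2 := by
    have : 0 ≤ y * L1 ^ 2 := by positivity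
    linarith
  have hyy' : y * (1000000 * L1 ^ 2) ≤ y * y := mul_le_mul_of_nonneg_left g3 hy.le
  have hyL0 : 0 < y * L1 ^ 2 := by positivity
  have hzG : (z : ℝ) < G := by linarith
  have hzN : z ≤ N := by
    have : (z : ℝ) ≤ N := by linarith
    exact_mod_cast this
  have hNz2 : N < z ^ 2 := by
    have h9 : (N : ℝ) < (z : ℝ) ^ 2 := by
      have h10 : (y / 800) ^ 2 ≤ (z : ℝ) ^ 2 := pow_le_pow_left₀ (by positivity) hz800 2
      have h11 : (y / 800) ^ 2 = y * y / 640000 := by ring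
      rw [h11] at h10
      linarith
    exact_mod_cast h9
  have hlNL : L1 ≤ Real.log N := by
    rw [hL1]
    exact Real.log_le_log hy hyN
  have hlN2 : Real.log N ≤ 2 * L1 := by
    have h9 : (N : ℝ) ≤ y ^ 2 := by
      have : y ^ 2 = y * y := by ring
      rw [this]
      linarith
    have h10 := Real.log_le_log hNpos h9
    rw [Real.log_pow, ← hL1] at h10
    push_cast at h10
    exact h10
  obtain ⟨hlz1, hlKz⟩ := par_z' (K := N) hy hL1 hL2 (by linarith) (by linarith) hz800 hNpos hNy'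
  have hlzN : Real.log z ≤ Real.log N := Real.log_le_log hzpos (by exact_mod_cast hzN)
  have hlzL : Real.log z ≤ L1 := by
    rw [hL1]
    exact Real.log_le_log hzpos (by linarith)
  -- smooth numbers
  obtain ⟨hκ1, hκ2, hE⟩ := par_k (lw := Real.log w) (lK := Real.log N) b1 (by linarith) hL32 eL3 eL2 hlwp
    (by rw [← hω]; exact hlw1) (by linarith) hlNL
  have hsm := hsmo N w (L3 - Real.log L3) (by omega) hw2 hκ1 (by linarith)
  have hsm2 : ((sm N w).card : ℝ) * Real.log N ≤ 2 * C * N := by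
    refine hsm.trans ?_
    have hCK : 0 ≤ C * (N : ℝ) := by positivity
    have := mul_le_mul_of_nonneg_left hE hCK
    linarith
  refine ⟨w, z, N, hw2, hwz, hwy2, by linarith, by linarith, ?_, by linarith, ?_⟩
  · have : y ^ 2 = y * y := by ring
    rw [this]
    linarith
  intro P B hP hB hBs H hHc hHN hadm
  have hHcR : (H.card : ℝ) ≤ κ := by exact_mod_cast hHc
  -- the centre
  have hκN : 2 * κ ≤ N := by
    have e1 : ((κ + 1 : ℕ) : ℝ) ≤ L1 := g1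
    push_cast at e1
    have e2 : 2 * (κ : ℝ) ≤ N := by linarith
    exact_mod_cast e2
  obtain ⟨cc, hcc1, hccN, hccH, hccs⟩ := ctr (N := N) (w0 := w0) hHc hκN (by omega) (by omega)
  obtain ⟨b, hb1, hb2, hb3⟩ := combA (N := N) (P := P) (w0 := w0) (c := cc) (by omega) hw0w hwz
    (fun p hp => (hB p hp).2.1) hHc hadm
  obtain ⟨X, hX⟩ : ∃ X, X = XX H cc w z := ⟨_, rfl⟩
  obtain ⟨Dd, hDd⟩ : ∃ Dd, Dd = XX H cc 0 w0 := ⟨_, rfl⟩
  rw [← hX, ← hDd] at hb3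
  refine ⟨b, hb1, hb2, hb3.trans ?_⟩
  have hDp : ∀ p ∈ Dd, p.Prime ∧ p ≤ w := by
    intro p hp
    rw [hDd, mem_XX] at hp
    exact ⟨hp.2.1, hp.1.2.trans hw0w⟩
  have hDs : ∑ p ∈ Dd, (1 : ℝ) / p ≤ 4 * κ := by
    rw [hDd]
    exact XX_sum.trans hccs
  have hDprod := Ctr_prod (fun p hp => (hDp p hp).1) hDs
  have hcn := hcnt N w0 w z P (B ∪ X) Dd hw02 hw0w hwz hzN hNz2 hP hDp
  obtain ⟨sD, hsD⟩ : ∃ s : ℝ, s = ((SD N w0 w z P (B ∪ X) Dd).card : ℝ) := ⟨_, rfl⟩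
  rw [← hsD] at hcn
  have hs0 : 0 ≤ sD := by rw [hsD]; exact Nat.cast_nonneg _
  have hXs : ∑ p ∈ X, (1 : ℝ) / p ≤ 1 / (2 * L1 ^ 2) := by
    have e1 : ∀ p ∈ X, (1 : ℝ) / p ≤ 1 / w := by
      intro p hp
      rw [hX, mem_XX] at hp
      exact one_div_le_one_div_of_le hwpos (by exact_mod_cast hp.2.2.1.le)
    have e2 := Ctr_card (N := N) (H := H) (D := X) (k := cc) (by omega) hHN hcc1 hccN hccH (fun p hp => by
      rw [hX, mem_XX] at hp
      exact ⟨hp.2.1, hp.2.2.2⟩)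
    have e3 : (X.card : ℝ) ≤ 4 * (κ + 1) * L1 := by
      refine e2.trans ?_
      have e4 : 2 * (H.card : ℝ) * Real.log N ≤ 2 * κ * (2 * L1) :=
        mul_le_mul (by linarith) hlN2 (by linarith) (by positivity)
      linarith
    calc ∑ p ∈ X, (1 : ℝ) / p ≤ ∑ _p ∈ X, (1 : ℝ) / w := Finset.sum_le_sum e1
      _ = X.card / w := by rw [Finset.sum_const, nsmul_eq_mul, mul_one_div]
      _ ≤ (4 * (κ + 1) * L1) / w := div_le_div_of_nonneg_right e3 hwpos.le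
      _ ≤ 1 / (2 * L1 ^ 2) := by
          rw [div_le_div_iff₀ hwpos (by positivity)]
          linarith
  have hBXs : ∑ p ∈ B ∪ X, (1 : ℝ) / p + 1 / w ≤ 2 / L1 ^ 2 := by
    classical
    have e1 : ∑ p ∈ B ∪ X, (1 : ℝ) / p ≤ ∑ p ∈ B, (1 : ℝ) / p + ∑ p ∈ X, (1 : ℝ) / p := by
      rw [← Finset.sum_union_inter]
      have : (0 : ℝ) ≤ ∑ p ∈ B ∩ X, (1 : ℝ) / p := Finset.sum_nonneg fun _ _ => by positivity
      linarith
    have e2 : (1 : ℝ) / w ≤ 1 / (2 * L1 ^ 2) := by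
      apply one_div_le_one_div_of_le (by positivity)
      refine le_trans ?_ hwL
      have e3 : (1 : ℝ) ≤ 4 * (κ + 1) * L1 := by
        have : (0 : ℝ) ≤ κ := Nat.cast_nonneg _
        nlinarith
      calc 2 * L1 ^ 2 = 2 * L1 ^ 2 * 1 := by ring
        _ ≤ _ := mul_le_mul_of_nonneg_left e3 (by positivity)
    have e3 : (1 : ℝ) / (2 * L1 ^ 2) = 1 / L1 ^ 2 / 2 := by
      field_simp
    have e4 : (2 : ℝ) / L1 ^ 2 = 2 * (1 / L1 ^ 2) := by ring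
    rw [e3] at hXs e2
    rw [e4]
    linarith
  have hs : (2 * sD) * (L1 / 2) ≤ (2 * (2 * C + 1) + 2 + 4 * (2 * C2)) * N := by
    have e1 := mul_le_mul_of_nonneg_left hlz1 hs0
    have e2 := mul_le_mul_of_nonneg_left hlzN (Nat.cast_nonneg (sm N w).card : (0 : ℝ) ≤ _)
    have e3 : (∑ p ∈ B ∪ X, (1 : ℝ) / p + 1 / w) * N * Real.log z ≤ 2 * N := by
      have e7 : (∑ p ∈ B ∪ X, (1 : ℝ) / p + 1 / w) * Real.log z ≤ 2 / L1 ^ 2 * L1 := by
        apply mul_le_mul hBXs hlzL (by linarith) (by positivity)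
      have e8 : 2 / L1 ^ 2 * L1 ≤ 2 := by
        have : 2 / L1 ^ 2 * L1 = 2 / L1 := by field_simp
        rw [this, div_le_iff₀ hL1p]
        linarith
      have e9 := mul_le_mul_of_nonneg_right (e7.trans e8) hNpos.le
      linarith
    have e4 : C2' * (∏ p ∈ Dd, (1 - ((p : ℝ))⁻¹)⁻¹) * N * (1 + Real.log ((N : ℝ) / z) / Real.log w0) ≤ 4 * C2 * N := by
      have e5 : Real.log ((N : ℝ) / z) / Real.log w0 ≤ 3 := by
        rw [div_le_iff₀ (by linarith)]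
        linarith
      have e5' : 0 ≤ 1 + Real.log ((N : ℝ) / z) / Real.log w0 := by
        have : 0 ≤ Real.log ((N : ℝ) / z) := by
          apply Real.log_nonneg
          rw [le_div_iff₀ hzpos]
          linarith
        have : 0 ≤ Real.log ((N : ℝ) / z) / Real.log w0 := div_nonneg this (by linarith)
        linarith
      have e6 : C2' * (∏ p ∈ Dd, (1 - ((p : ℝ))⁻¹)⁻¹) ≤ C2 := by
        rw [hC2d]
        apply mul_le_mul_of_nonneg_left _ (by linarith)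
        refine hDprod.trans (Real.exp_le_exp.2 ?_)
        linarith
      calc C2' * (∏ p ∈ Dd, (1 - ((p : ℝ))⁻¹)⁻¹) * N * (1 + Real.log ((N : ℝ) / z) / Real.log w0)
          ≤ C2 * N * (1 + Real.log ((N : ℝ) / z) / Real.log w0) := by
            apply mul_le_mul_of_nonneg_right _ e5'
            exact mul_le_mul_of_nonneg_right e6 hNpos.le
        _ ≤ C2 * N * 4 := mul_le_mul_of_nonneg_left (by linarith) (by positivity)
        _ = _ := by ring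
    linarith
  have hsum : ∑ k ∈ (SC N cc w0 w z P (B ∪ X) Dd) \ H, ∏ p ∈ (QQ w0 w P).filter
      (fun p : ℕ => ∀ h' ∈ H, ¬ k ≡ h' [MOD p]), (1 - 1 / (p : ℝ)) ≤
      (2 * sD) * (C1 * Real.exp (8 * ((κ + 1 : ℕ) : ℝ)) * (Real.log w0 / Real.log w)) := by
    have hpos : 0 ≤ C1 * Real.exp (8 * ((κ + 1 : ℕ) : ℝ)) * (Real.log w0 / Real.log w) := by
      have : 0 ≤ Real.log w0 := by linarith
      positivity
    have e1 : ∀ k ∈ (SC N cc w0 w z P (B ∪ X) Dd) \ H, ∏ p ∈ (QQ w0 w P).filter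
      (fun p : ℕ => ∀ h' ∈ H, ¬ k ≡ h' [MOD p]), (1 - 1 / (p : ℝ)) ≤
        C1 * Real.exp (8 * ((κ + 1 : ℕ) : ℝ)) * (Real.log w0 / Real.log w) := by
      intro k hk
      rw [Finset.mem_sdiff, mem_SC] at hk
      obtain ⟨⟨hk1, hk2⟩, hk3⟩ := hk
      have e2 := hprd w0 w N P H hw02 hw0w (by omega) hHN k hk1.1 hk1.2 hk3
      refine e2.trans ?_
      apply mul_le_mul_of_nonneg_right _ (by
        have : 0 ≤ Real.log w0 := by linarith
        positivity)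
      apply mul_le_mul_of_nonneg_left _ (by linarith)
      apply Real.exp_le_exp.2
      rw [div_le_iff₀ hw0p]
      have e4 : (H.card : ℝ) * Real.log N ≤ κ * (2 * L1) :=
        mul_le_mul hHcR hlN2 (by linarith) (by positivity)
      have e5 : (κ : ℝ) * L1 ≤ κ * w0 := mul_le_mul_of_nonneg_left hw0a (by positivity)
      push_cast
      linarith
    refine (Finset.sum_le_sum e1).trans ?_
    rw [Finset.sum_const, nsmul_eq_mul]
    apply mul_le_mul_of_nonneg_right _ hpos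
    have e6 : (((SC N cc w0 w z P (B ∪ X) Dd) \ H).card : ℝ) ≤ ((2 * (SD N w0 w z P (B ∪ X) Dd).card : ℕ) : ℝ) := by
      exact_mod_cast (card_le_card Finset.sdiff_subset).trans (SC_card hcc1 hccN)
    push_cast at e6
    rw [hsD]
    exact e6
  have hfin := num (s := 2 * sD) (NN := N) (lw := Real.log w) (l0 := Real.log w0) (κ := κ + 1) (C := 2 * C + 1)
    (C2 := 2 * C2) hε (by linarith) hC1 (by linarith)
    hD hc0 hc2 hy hL1p hL2p hL3p hf (by rw [← hω]; exact hlw2) hlw0b (by linarith) (by linarith) hs hNf g2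
  push_cast at hfin hsum
  linarith

end H73MA
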