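import Pool.Agent.H91.UX.Dsv
import Pool.Agent.H91.UX.Chw
import Pool.Agent.H73.MA.Prs

/-!
# The master theorem: arbitrary admissible sets in long intervals without other primes
-/

set_option autoImplicit false

open Finset EG H69PG H73PC H91UX

namespace H73MA

theorem mas (m : ℕ) : ∃ K : ℕ, m + 1 ≤ K ∧ ∃ c x0 : ℝ, 0 < c ∧ ∀ x : ℝ, x0 ≤ x → ∃ N : ℕ,
    c * sz (Real.log x) ≤ (N : ℝ) ∧ ∀ H : Finset ℕ, H.card = K → (∀ h ∈ H, 1 ≤ h ∧ h ≤ N) → Adm H → ∃ n : ℕ,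
    x / 2 < n ∧ (n : ℝ) + N ≤ x ∧ m + 1 ≤ (H.filter (fun h : ℕ => (n + h).Prime)).card ∧
    ∀ k : ℕ, 1 ≤ k → k ≤ N → k ∉ H → ∃ p : ℕ, p.Prime ∧ (p : ℝ) ≤ x ^ (1 / 64 : ℝ) ∧ p ∣ n + k := by
  obtain ⟨Cf, hCf, hphi⟩ := wb_phi
  obtain ⟨K, hmK, c0, x1, hc0, hcru⟩ := UC.cru m (2 * Cf) (by linarith)
  obtain ⟨c, hc, x2, hpre⟩ := presA K c0 hc0
  obtain ⟨x3, hds⟩ := dsv
  refine ⟨K, hmK, c, max (max x1 (Real.exp x2)) (max x3 (Real.exp 640000)), hc, ?_⟩
  intro x hx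
  have hx1 : x1 ≤ x := ((le_max_left _ _).trans (le_max_left _ _)).trans hx
  have hx2 : Real.exp x2 ≤ x := ((le_max_right _ _).trans (le_max_left _ _)).trans hx
  have hx3 : x3 ≤ x := ((le_max_left _ _).trans (le_max_right _ _)).trans hx
  have hx4 : Real.exp 640000 ≤ x := ((le_max_right _ _).trans (le_max_right _ _)).trans hx
  have hx0 : 0 < x := lt_of_lt_of_le (Real.exp_pos _) hx4
  have hL : 640000 ≤ Real.log x := by
    rw [Real.le_log_iff_exp_le hx0]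
    exact hx4
  have hL2 : x2 ≤ Real.log x := by
    rw [Real.le_log_iff_exp_le hx0]
    exact hx2
  obtain ⟨n1, n2, n3, n4, n5, n6, n7⟩ := num1 hx0 hL
  obtain ⟨w0, z, Z, hw02, hw0z, hw0y, hz400, hz800, hZ4, hG, hpre⟩ := hpre (Real.log x) hL2
  obtain ⟨P, B, hP, hPle, hB, hBs, hds⟩ := hds x hx3 w0 z hw02 hw0y hw0z hz400
  have hZ : (Z : ℝ) ≤ Real.log x ^ 2 := by
    have : (0 : ℝ) ≤ Z := Nat.cast_nonneg _
    linarith
  have hLL : 1 ≤ Real.log (Real.log x) := by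
    rw [Real.le_log_iff_exp_le (by linarith)]
    have := Real.exp_one_lt_d9
    linarith
  have hBs1 : ∑ p ∈ B, 1 / (p : ℝ) ≤ 1 := by
    refine hBs.trans ?_
    rw [div_le_one (by positivity)]
    nlinarith
  have n8 : 2 ≤ z := hw02.trans hw0z
  have hph := hphi z P B hP (fun p hp => (hB p hp).1) hBs1 n8
  have n7 := n7 z hz800
  have hWdvd : ∀ {p : ℕ}, p.Prime → p ∣ H5CP.WW z P B → p ≤ z := fun hp hd =>
    ((wb_dvd hp).1 hd).1
  have hWle : (H5CP.WW z P B : ℝ) ≤ x ^ (1 / 50 : ℝ) := by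
    refine le_trans ?_ (n3 z hz400)
    exact_mod_cast wb_le z P B
  have hWpos := wb_pos z P B
  have hzfl : (z : ℝ) ≤ Real.log x / 400 := by linarith
  refine ⟨Z, ?_, ?_⟩
  · have h3 : c * sz (Real.log x) = c * Real.log x * Real.log (Real.log x) ^ 2 *
        Real.log (Real.log (Real.log (Real.log x))) / Real.log (Real.log (Real.log x)) ^ 2 := by
      unfold sz
      ring
    rw [h3]
    exact hG
  intro H hHK hHZ hadm
  obtain ⟨b, hbW, hh0, hcount⟩ := hpre P B (Or.inr hP) hB hBs H hHK.le hHZ hadm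
  have hh : ∀ s ∈ H, 1 ≤ s ∧ s ≤ Z ∧ Nat.Coprime (b + s) (H5CP.WW z P B) := fun s hs =>
    ⟨(hHZ s hs).1, (hHZ s hs).2, hh0 s hs⟩
  obtain ⟨W, hW⟩ : ∃ W, W = H5CP.WW z P B := ⟨_, rfl⟩
  rw [← hW] at hds hcount hh hph hWdvd hWle hWpos
  have hWR : (1 : ℝ) ≤ W := by exact_mod_cast hWpos
  obtain ⟨T, hT⟩ : ∃ T, T = ⌊x / (4 * (W : ℝ))⌋₊ := ⟨_, rfl⟩
  rw [← hT] at hds
  obtain ⟨w, hw⟩ : ∃ w, w = ⌊Real.log x ^ 3⌋₊ := ⟨_, rfl⟩
  have hL3 : Real.log x ^ 2 * 40000 ≤ Real.log x ^ 3 := by nlinarith [sq_nonneg (Real.log x)]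
  have hw1 : (w : ℝ) ≤ Real.log x ^ 3 := by
    rw [hw]
    exact Nat.floor_le (by positivity)
  have hw2 : Real.log x ^ 2 ≤ w := by
    have : Real.log x ^ 3 < (w : ℝ) + 1 := by rw [hw]; exact Nat.lt_floor_add_one _
    nlinarith
  have hw3 : Real.log x ≤ w := by nlinarith
  have hZw : Z ≤ w := by
    have : (Z : ℝ) ≤ w := hZ.trans hw2
    exact_mod_cast this
  have hTle : (T : ℝ) ≤ x / (4 * (W : ℝ)) := by
    rw [hT]
    exact Nat.floor_le (by positivity)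
  have hTge : x ^ (9 / 10 : ℝ) ≤ T := by
    have h1 : x / (4 * (W : ℝ)) < (T : ℝ) + 1 := by rw [hT]; exact Nat.lt_floor_add_one _
    have h2 : x / (4 * x ^ (1 / 50 : ℝ)) ≤ x / (4 * (W : ℝ)) := by
      refine div_le_div_of_nonneg_left hx0.le (by positivity) ?_
      linarith
    linarith
  -- the starting point
  obtain ⟨B0, hB0⟩ : ∃ B0, B0 = b % W + W * (⌊x / 2⌋₊ / W + 1) := ⟨_, rfl⟩
  have hB0mod : B0 ≡ b [MOD W] := by
    rw [hB0]
    unfold Nat.ModEq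
    rw [Nat.add_mul_mod_self_left, Nat.mod_mod]
  have hB0lo : x / 2 < B0 := by
    have h1 : x / 2 < (⌊x / 2⌋₊ : ℝ) + 1 := Nat.lt_floor_add_one _
    have h2 : ⌊x / 2⌋₊ + 1 ≤ B0 := by
      have := Nat.lt_mul_div_succ ⌊x / 2⌋₊ hWpos
      rw [hB0]
      omega
    have h3 : ((⌊x / 2⌋₊ + 1 : ℕ) : ℝ) ≤ B0 := by exact_mod_cast h2
    push_cast at h3
    linarith
  have hB0hi : (B0 : ℝ) ≤ x / 2 + 2 * W := by
    have h1 : ((⌊x / 2⌋₊ : ℕ) : ℝ) ≤ x / 2 := Nat.floor_le (by positivity)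
    have h2 : B0 ≤ ⌊x / 2⌋₊ + 2 * W := by
      have h3 := Nat.mul_div_le ⌊x / 2⌋₊ W
      have h4 := Nat.mod_lt b hWpos
      rw [hB0, Nat.mul_add, Nat.mul_one]
      omega
    have h3 : (B0 : ℝ) ≤ ((⌊x / 2⌋₊ + 2 * W : ℕ) : ℝ) := by exact_mod_cast h2
    push_cast at h3
    linarith
  have hWx : (W : ℝ) ≤ x / 100 := hWle.trans n2
  have hZx : (Z : ℝ) ≤ x / 100 := hZ.trans n1
  have hcop : ∀ s, Nat.Coprime (B0 + s) W ↔ Nat.Coprime (b + s) W := by
    intro s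
    have h1 : B0 + s ≡ b + s [MOD W] := Nat.ModEq.add_right s hB0mod
    unfold Nat.Coprime
    rw [Nat.ModEq.gcd_eq h1]
  -- the shifts
  obtain ⟨S, hS⟩ : ∃ S : Finset ℕ, S = ((Icc 1 Z).filter (fun s => Nat.Coprime (b + s) W)) \ H := ⟨_, rfl⟩
  have hmemS : ∀ s, s ∈ S ↔ (1 ≤ s ∧ s ≤ Z) ∧ Nat.Coprime (b + s) W ∧ s ∉ H := by
    intro s
    rw [hS, mem_sdiff, mem_filter, mem_Icc]
    tauto
  have hcard : (Fintype.card {s // s ∈ S} : ℝ) ≤ c0 * Real.log x := by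
    rw [Fintype.card_coe]
    refine le_trans ?_ hcount
    have : S.card ≤ ((Icc 1 Z).filter (fun s => Nat.Coprime (b + s) W)).card := by
      rw [hS]
      exact card_le_card sdiff_subset
    exact_mod_cast this
  have hFw : Fw w w Z W none (Sum.elim (fun i : {s // s ∈ H} => B0 + i.1) (fun s : {s // s ∈ S} => B0 + s.1)) := by
    refine ⟨hWpos, ?_, ?_, ?_, hZw, ?_, ?_⟩
    · intro p hp hd
      have h1 := hWdvd hp hd
      have h2 : (p : ℝ) ≤ w := by
        have : (p : ℝ) ≤ z := by exact_mod_cast h1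
        linarith
      exact_mod_cast h2
    · intro i j hij
      rcases i with i | i <;> rcases j with j | j
      · simp only [Sum.elim_inl] at hij
        have : i = j := Subtype.ext (by omega)
        rw [this]
      · simp only [Sum.elim_inl, Sum.elim_inr] at hij
        have h1 : i.1 = j.1 := by omega
        exact absurd (h1 ▸ i.2) ((hmemS j.1).1 j.2).2.2
      · simp only [Sum.elim_inl, Sum.elim_inr] at hij
        have h1 : j.1 = i.1 := by omega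
        exact absurd (h1 ▸ j.2) ((hmemS i.1).1 i.2).2.2
      · simp only [Sum.elim_inr] at hij
        have : i = j := Subtype.ext (by omega)
        rw [this]
    · have hbd : ∀ i : {s // s ∈ H} ⊕ {s // s ∈ S}, ∃ s : ℕ, s ≤ Z ∧
          Sum.elim (fun i : {s // s ∈ H} => B0 + i.1) (fun s : {s // s ∈ S} => B0 + s.1) i = B0 + s := by
        intro i
        rcases i with i | i
        · exact ⟨i.1, (hh i.1 i.2).2.1, rfl⟩
        · exact ⟨i.1, ((hmemS i.1).1 i.2).1.2, rfl⟩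
      intro i j
      obtain ⟨s, hs1, hs2⟩ := hbd i
      obtain ⟨u, hu1, hu2⟩ := hbd j
      rw [hs2, hu2, abs_le]
      push_cast
      constructor <;> omega
    · intro i
      rcases i with i | i
      · have := (hh i.1 i.2).1
        show 1 ≤ B0 + i.1
        omega
      · have := ((hmemS i.1).1 i.2).1.1
        show 1 ≤ B0 + i.1
        omega
    · intro k hk
      exact absurd hk (by simp)
  have hcHlo : ∀ i : {s // s ∈ H}, x / 3 ≤ ((B0 + i.1 : ℕ) : ℝ) := by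
    intro i
    push_cast
    have : (0 : ℝ) ≤ i.1 := Nat.cast_nonneg _
    linarith
  have hcHhi : ∀ i : {s // s ∈ H}, ((B0 + i.1 : ℕ) : ℝ) ≤ 2 * x / 3 := by
    intro i
    push_cast
    have : (i.1 : ℝ) ≤ Z := by exact_mod_cast (hh i.1 i.2).2.1
    linarith
  obtain ⟨t, ht, hi1, hi2⟩ := hcru x hx1 P hP hPle {s // s ∈ H} {s // s ∈ S} (by rw [Fintype.card_coe]; exact hHK) hcard w Z W T
    (fun i => B0 + i.1) (fun s => B0 + s.1) hw3 hw1 hZw hFw hTge hcHlo (by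
      intro i
      obtain ⟨Y, E, hY1, hY2, hY3⟩ := hds w (B0 + i.1) hw3 (hcHlo i) (hcHhi i) ((hcop i.1).2 (hh i.1 i.2).2.2)
      refine ⟨Y, E, hY1, le_trans ?_ hY2, hY3⟩
      have hL0 : 0 < Real.log x := by linarith
      have e1 : (W : ℝ) * T / ((Nat.totient W : ℝ) * Real.log x) =
          (T : ℝ) * (((W : ℝ) / (Nat.totient W : ℝ)) / Real.log x) := by
        rw [mul_comm (W : ℝ) T, mul_div_assoc, div_div]
      rw [e1]
      refine mul_le_mul_of_nonneg_left ?_ (Nat.cast_nonneg T)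
      have e2 : Real.log (Real.log x) / (2 * Cf * Real.log x) = (Real.log (Real.log x) / 2 / Cf) / Real.log x := by
        rw [div_div, div_div, mul_assoc]
      rw [e2]
      refine div_le_div_of_nonneg_right ?_ hL0.le
      refine le_trans ?_ hph
      exact div_le_div_of_nonneg_right n7 (by linarith))
  -- the window
  have hWT : (W : ℝ) * T ≤ x / 4 := by
    have h1 : (W : ℝ) * T ≤ W * (x / (4 * (W : ℝ))) := mul_le_mul_of_nonneg_left hTle (by linarith)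
    have h2 : (W : ℝ) * (x / (4 * (W : ℝ))) = x / 4 := by field_simp
    linarith
  obtain ⟨n, hn⟩ : ∃ n, n = W * t + B0 := ⟨_, rfl⟩
  have hnlo : x / 2 < n := by
    rw [hn]
    push_cast
    have : (0 : ℝ) ≤ W * t := by positivity
    linarith
  have hnhi : (n : ℝ) + Z ≤ x := by
    rw [hn]
    push_cast
    have h1 : (W : ℝ) * t ≤ W * T := mul_le_mul_of_nonneg_left (by exact_mod_cast ht.le) (by linarith)
    linarith
  have hnc : ∀ s, Nat.Coprime (n + s) W ↔ Nat.Coprime (b + s) W := by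
    intro s
    rw [← hcop s]
    have h1 : n + s ≡ B0 + s [MOD W] := by
      refine Nat.ModEq.add_right s ?_
      rw [hn]
      unfold Nat.ModEq
      rw [Nat.mul_add_mod]
    unfold Nat.Coprime
    rw [Nat.ModEq.gcd_eq h1]
  refine ⟨n, hnlo, hnhi, ?_, ?_⟩
  · refine hi2.trans ?_
    refine Finset.card_le_card_of_injOn (fun i : {s // s ∈ H} => i.1) ?_ (fun i _ j _ hij => Subtype.ext hij)
    intro i hi
    have hi' := (Finset.mem_filter.1 (Finset.mem_coe.1 hi)).2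
    apply Finset.mem_coe.2
    rw [mem_filter]
    refine ⟨i.2, ?_⟩
    have e : n + i.1 = W * t + (B0 + i.1) := by rw [hn]; ring
    rw [e]
    exact hi'
  · intro k hk1 hk2 hk3
    by_cases hcp : Nat.Coprime (b + k) W
    · have hkS : k ∈ S := (hmemS k).2 ⟨⟨hk1, hk2⟩, hcp, hk3⟩
      obtain ⟨p, hp1, hp2, hp3⟩ := hi1 ⟨k, hkS⟩
      have e : W * t + (B0 + k) = n + k := by rw [hn]; ring
      have hp3' : p ∣ n + k := by rw [← e]; exact hp3
      exact ⟨p, hp1, hp2, hp3'⟩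
    · have hcp' : ¬ Nat.Coprime (n + k) W := fun h => hcp ((hnc k).1 h)
      obtain ⟨p, hp, hd1, hd2⟩ := Nat.Prime.not_coprime_iff_dvd.1 hcp'
      refine ⟨p, hp, ?_, hd1⟩
      have h1 := hWdvd hp hd2
      have h2 : (p : ℝ) ≤ z := by exact_mod_cast h1
      have h3 : Real.log x / 64 ≤ x ^ (1 / 64 : ℝ) := by
        have h4 := Real.log_le_rpow_div hx0.le (show (0 : ℝ) < 1 / 64 by norm_num)
        have h5 : x ^ (1 / 64 : ℝ) / (1 / 64 : ℝ) = 64 * x ^ (1 / 64 : ℝ) := by ring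
        rw [h5] at h4
        linarith
      linarith

end H73MA
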